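import Pool.Agent.Lib.CQ.ImplQ
import Pool.Agent.Lib.TC.I3
import Pool.Agent.Lib.TQ.MainK

/-!
# Module CQ.EmbA: embedded local uniformization from the implicit ideal, defect one, quotient field case
-/

open IsLocalRing

namespace CQ
open TC Pool.Agent.Lib.MP_3029eb_ag Pool.Agent.Lib.MP_3029eb_ag.Abh

private theorem embA_ball (p : ℕ) [Fact p.Prime] {k : Type} [Field k] [PerfectField k] {L : Type}
    [NontriviallyNormedField L] [IsUltrametricDist L] [CharP L p]
    {r : ℕ} (hr : 0 < r) (x : Fin r → L) (hx : IndV (ball L) x)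
    (hrank : ∀ z : Fin (r + 1) → L, (∀ i, z i ≠ 0) →
      ∃ a : Fin (r + 1) → ℤ, a ≠ 0 ∧ (ball L).valuation (mon z a) = 1)
    (B : Subring L) [IsNoetherianRing B] [IsLocalRing B] (hBW : B ≤ (ball L).toSubring)
    (hloc : locV (ball L) B = B) (hfrac : ∀ z : L, ∃ a ∈ B, ∃ b ∈ B, b ≠ 0 ∧ z * b = a)
    (hB : GoodBase B) (σ : k →+* ResidueField B) (hσ : EFT σ)
    (hres : ∀ z : L, z ∈ ball L → ∃ f : Polynomial B,
      (∃ n, (ball L).valuation ((f.coeff n : B) : L) = 1) ∧
      (ball L).valuation (Polynomial.eval₂ B.subtype z f) < 1)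
    (I : Ideal (AdicCompletion (maximalIdeal B) B)) (hI : Impl (ball L) B.subtype I)
    (hdim : ringKrullDim (AdicCompletion (maximalIdeal B) B ⧸ I) ≤
      ((r + 1 : ℕ) : WithBot ℕ∞)) :
    EMB3 (ball L) B r := by
  classical
  obtain ⟨Ω, i1, i2, i3, κ, hκ, hκd⟩ := exists_completion_field L
  have hdomB : Dom B.subtype := dom_subtype B hBW hloc
  obtain ⟨φ, hφ, hφA⟩ := Imp.exists_lift_subring κ hκ B hdomB
  have hsm : ∃ c : B, B.subtype c ≠ 0 ∧ ‖B.subtype c‖ < 1 := by
    obtain ⟨z, hz0, hz1⟩ := NormedField.exists_norm_lt_one L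
    obtain ⟨a, ha, b, hb, hb0, hab⟩ := hfrac z
    have hz0' : z ≠ 0 := norm_pos_iff.1 hz0
    refine ⟨⟨a, ha⟩, ?_, ?_⟩
    · show a ≠ 0
      rw [← hab]
      exact mul_ne_zero hz0' hb0
    · show ‖a‖ < 1
      rw [← hab, norm_mul]
      have h1 : ‖b‖ ≤ 1 := (mem_ball b).1 (hBW hb)
      exact (mul_le_of_le_one_right (norm_nonneg _) h1).trans_lt hz1
  have hIle : I ≤ RingHom.ker φ :=
    le_kerQ κ hκ B B.subtype hsm I hI φ (fun t => (hφ t).1) (fun c => hφA c)
  have hdim' : ringKrullDim (AdicCompletion (maximalIdeal B) B ⧸ RingHom.ker φ) ≤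
      ((r + 1 : ℕ) : WithBot ℕ∞) := by
    refine le_trans ?_ hdim
    exact ringKrullDim_le_of_surjective (Ideal.Quotient.factor hIle)
      (Ideal.Quotient.factor_surjective hIle)
  obtain ⟨h, hE⟩ := Pool.Agent.Lib.TQ.qe_ball p B hBW hloc hfrac σ hσ hr x hx
    (fun z hz => by
      obtain ⟨a, ha, h1⟩ := hrank z hz
      exact ⟨a, ha, (J7_val_one_iff _).1 h1⟩)
    (fun z hz => by
      obtain ⟨f, ⟨n, hn⟩, hf⟩ := hres z hz
      exact ⟨f, ⟨n, (J7_val_one_iff _).1 hn⟩, (Imp.ID_lt_iff _).1 hf⟩)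
    (fun g hg A' hA' hloc' => by
      have hBA : B ≤ A' := by
        rw [hA']
        exact fun a ha => le_locV _ _ (Subring.subset_closure (Or.inl ha))
      have h1 : EFT (Subring.inclusion hBA) := by
        subst hA'
        have h2 := EFT_locV (ball L) B (RingHom.id B) (by
          let i2 := (RingHom.id B).toAlgebra
          show Algebra.EssFiniteType B B
          exact Algebra.EssFiniteType.of_surjective (Algebra.ofId B B)
            (fun b => ⟨b, rfl⟩)) g (Subring.inclusion hBA) (fun a => rfl)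
        rwa [RingHom.comp_id] at h2
      have hn : IsNoetherianRing A' := h1.isNoetherianRing
      exact hB.2 A' (Subring.inclusion hBA) h1)
    κ hκ hκd φ hφ hφA hdim'
  exact EMB3_of_EMB2 hE

/-- The case where `L` is the field of fractions of `B`. -/
theorem emb3_qe_frac (p : ℕ) [Fact p.Prime] {k : Type} [Field k] [PerfectField k] {L : Type}
    [Field L] [hp : CharP L p] (W : ValuationSubring L)
    (harch : ∀ a b : L, a ≠ 0 → W.valuation b < 1 →
      ∃ n : ℕ, W.valuation (b ^ n) ≤ W.valuation a)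
    {r : ℕ} (hr : 0 < r) (x : Fin r → L) (hx : IndV W x)
    (hrank : ∀ z : Fin (r + 1) → L, (∀ i, z i ≠ 0) →
      ∃ a : Fin (r + 1) → ℤ, a ≠ 0 ∧ W.valuation (mon z a) = 1)
    (B : Subring L) [IsNoetherianRing B] [IsLocalRing B] (hBW : B ≤ W.toSubring)
    (hloc : locV W B = B) (hfrac : ∀ z : L, ∃ a ∈ B, ∃ b ∈ B, b ≠ 0 ∧ z * b = a)
    (hB : GoodBase B) (σ : k →+* ResidueField B) (hσ : EFT σ)
    (hres : ∀ z : L, z ∈ W → ∃ f : Polynomial B,
      (∃ n, W.valuation ((f.coeff n : B) : L) = 1) ∧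
      W.valuation (Polynomial.eval₂ B.subtype z f) < 1)
    (I : Ideal (AdicCompletion (maximalIdeal B) B)) (hI : Impl W B.subtype I)
    (hdim : ringKrullDim (AdicCompletion (maximalIdeal B) B ⧸ I) ≤
      ((r + 1 : ℕ) : WithBot ℕ∞)) :
    EMB3 W B r := by
  have hW : W ≠ ⊤ := by
    intro h
    exact hr.ne' (hx.eq_zero_of_top h)
  obtain ⟨v, hna, hnt, hVv⟩ := exists_absval W hW harch
  let iN : NormedField L := v.toNormedField
  have hnorm : ∀ z : L, ‖z‖ = v z := fun z => rfl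
  let iNN : NontriviallyNormedField L :=
    { v.toNormedField with
      non_trivial := by
        obtain ⟨y, hy0, hy⟩ := hnt
        refine ⟨y⁻¹, ?_⟩
        have h1 : v y⁻¹ = (v y)⁻¹ := map_inv₀ v y
        show 1 < v y⁻¹
        rw [h1]
        exact (one_lt_inv₀ (v.pos hy0)).2 hy }
  have iU : IsUltrametricDist L :=
    IsUltrametricDist.isUltrametricDist_of_forall_norm_add_le_max_norm hna
  have hVb : W = ball L := by
    ext z
    rw [hVv, mem_ball]
    exact Iff.rfl
  subst hVb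
  exact embA_ball (L := L) p hr x hx hrank B hBW hloc hfrac hB σ hσ hres I hI hdim

end CQ
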