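import Pool.Agent.Lib.CQ.EmbA
import Pool.Agent.Lib.MP_3029eb_ag.ImpComplIso

/-!
# Module CQ.EmbQ: embedded local uniformization from the implicit ideal, defect one, for subrings of a field
-/

open IsLocalRing

namespace CQ
open TC Pool.Agent.Lib.MP_3029eb_ag Pool.Agent.Lib.MP_3029eb_ag.Abh

theorem EFT_of_surjective {B C : Type} [CommRing B] [CommRing C] (g : B →+* C)
    (hg : Function.Surjective g) : EFT g := by
  let i2 := g.toAlgebra
  show Algebra.EssFiniteType B C
  exact Algebra.EssFiniteType.of_surjective (Algebra.ofId B C) hg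

theorem dim_mapQ {A B : Type} [CommRing A] [CommRing B] (E : A ≃+* B) (I : Ideal A) :
    ringKrullDim (A ⧸ I) = ringKrullDim (B ⧸ I.map (E : A →+* B)) :=
  ringKrullDim_eq_of_ringEquiv (Ideal.quotientEquiv I _ E rfl)

/-- Local rings essentially of finite type over a good base are good bases. -/
theorem goodBase_of_EFT {Rb B : Type} [CommRing Rb] [CommRing B] (h : GoodBase Rb)
    {f : Rb →+* B} (hf : EFT f) : GoodBase B := by
  have hn : IsNoetherianRing Rb := h.1
  exact ⟨hf.isNoetherianRing, fun C _ _ _ _ g hg => h.2 C (g.comp f) (EFT_comp f g hf hg)⟩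

theorem emb3_qe (p : ℕ) [Fact p.Prime] {k : Type} [Field k] [PerfectField k] {L : Type}
    [Field L] [hp : CharP L p] (W : ValuationSubring L)
    (harch : ∀ a b : L, a ≠ 0 → W.valuation b < 1 →
      ∃ n : ℕ, W.valuation (b ^ n) ≤ W.valuation a)
    {r : ℕ} (hr : 0 < r) (x : Fin r → L) (hx : IndV W x)
    (hrank : ∀ z : Fin (r + 1) → L, (∀ i, z i ≠ 0) →
      ∃ a : Fin (r + 1) → ℤ, a ≠ 0 ∧ W.valuation (mon z a) = 1)
    (B : Subring L) [IsNoetherianRing B] [IsLocalRing B] (hBW : B ≤ W.toSubring)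
    (hloc : locV W B = B) (hxB : ∀ i, ∃ a ∈ B, ∃ b ∈ B, b ≠ 0 ∧ x i * b = a)
    (hB : GoodBase B) (σ : k →+* ResidueField B) (hσ : EFT σ)
    (hres : ∀ z : L, z ∈ W → ∃ f : Polynomial B,
      (∃ n, W.valuation ((f.coeff n : B) : L) = 1) ∧
      W.valuation (Polynomial.eval₂ B.subtype z f) < 1)
    (I : Ideal (AdicCompletion (maximalIdeal B) B)) (hI : Impl W B.subtype I)
    (hdim : ringKrullDim (AdicCompletion (maximalIdeal B) B ⧸ I) ≤
      ((r + 1 : ℕ) : WithBot ℕ∞)) :
    EMB3 W B r := by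
  classical
  have hj : Function.Injective (B.subtype) := Subtype.val_injective
  set φ : FractionRing B →+* L := IsFractionRing.lift hj with hφ
  have hφj : ∀ r : B, φ (algebraMap B _ r) = (r : L) :=
    fun r => IsFractionRing.lift_algebraMap hj r
  have hinj : Function.Injective (algebraMap B (FractionRing B)) :=
    IsFractionRing.injective B (FractionRing B)
  set A0 : Subring (FractionRing B) := (algebraMap B (FractionRing B)).range with hA0
  have hmap : A0.map φ = B := by
    ext z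
    constructor
    · rintro ⟨_, ⟨r, rfl⟩, rfl⟩
      rw [hφj]
      exact r.2
    · intro hz
      exact ⟨algebraMap B _ ⟨z, hz⟩, ⟨⟨z, hz⟩, rfl⟩, hφj _⟩
  have hfrac : ∀ z : FractionRing B, ∃ a ∈ A0, ∃ b ∈ A0, b ≠ 0 ∧ z * b = a := by
    intro z
    obtain ⟨⟨a, b⟩, hab⟩ := IsLocalization.surj (nonZeroDivisors B) z
    refine ⟨algebraMap B _ a, ⟨a, rfl⟩, algebraMap B _ b, ⟨b, rfl⟩, ?_, hab⟩
    intro h0
    exact nonZeroDivisors.ne_zero b.2 (hinj (by rw [h0, map_zero]))
  have hsurj : ∀ z : L, (∃ a ∈ B, ∃ b ∈ B, b ≠ 0 ∧ z * b = a) → ∃ z0, φ z0 = z := by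
    rintro z ⟨a, ha, b, hb, hb0, hz⟩
    refine ⟨algebraMap B _ ⟨a, ha⟩ / algebraMap B _ ⟨b, hb⟩, ?_⟩
    rw [map_div₀, hφj, hφj, div_eq_iff hb0]
    exact hz.symm
  have hx0 : ∀ i, ∃ z0, φ z0 = x i := fun i => hsurj _ (hxB i)
  choose x0 hx0 using hx0
  have hmon : ∀ {n : ℕ} (z : Fin n → FractionRing B) (m : Fin n → ℤ),
      φ (mon z m) = mon (fun i => φ (z i)) m := by
    intro n z m
    unfold mon
    rw [map_prod]
    refine Finset.prod_congr rfl fun i _ => ?_
    rw [map_zpow₀]
  -- the isomorphism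
  have hbij : Function.Bijective (algebraMap B (FractionRing B)).rangeRestrict :=
    ⟨fun a b hab => hinj (congrArg Subtype.val hab), RingHom.rangeRestrict_surjective _⟩
  let e : B ≃+* A0 := RingEquiv.ofBijective _ hbij
  have he : ∀ b : B, ((e b : A0) : FractionRing B) = algebraMap B _ b := fun b => rfl
  have hφe : ∀ b : B, φ ((e b : A0) : FractionRing B) = b := fun b => by rw [he, hφj]
  have iN0 : IsNoetherianRing A0 := isNoetherianRing_of_ringEquiv B e
  have iL0 : IsLocalRing A0 := e.isLocalRing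
  have hBW0 : A0 ≤ (W.comap φ).toSubring := by
    rintro _ ⟨b, rfl⟩
    change φ (algebraMap B _ b) ∈ W
    rw [hφj]
    exact hBW b.2
  have hloc0 : locV (W.comap φ) A0 = A0 := by
    apply le_antisymm _ (le_locV _ _)
    rintro z ⟨a, ⟨a', rfl⟩, b, ⟨b', rfl⟩, hb1, hz⟩
    rw [C2_comap_val_one, hφj] at hb1
    have h1 : φ z ∈ locV W B := ⟨a', a'.2, b', b'.2, hb1, by
      rw [← hφj a', ← hφj b', ← map_mul, hz]⟩
    rw [hloc] at h1
    refine ⟨⟨φ z, h1⟩, ?_⟩
    apply φ.injective
    rw [hφj]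
  have iC0 : CharP (FractionRing B) p := RingHom.charP φ φ.injective p
  obtain ⟨E, hE⟩ := Imp.exists_completion_equiv e
  have hEFTe : EFT (e.symm : A0 →+* B) := EFT_of_surjective _ e.symm.surjective
  have hEFTe' : EFT (e : B →+* A0) := EFT_of_surjective _ e.surjective
  have h3 : EMB3 (W.comap φ) A0 r := by
    refine emb3_qe_frac p (W.comap φ) ?_ hr x0 ⟨?_, ?_⟩ ?_ A0 hBW0 hloc0 hfrac
      (goodBase_of_EFT hB hEFTe')
      ((ResidueField.mapEquiv e : ResidueField B →+* ResidueField A0).comp σ) ?_ ?_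
      (I.map (E : _ →+* _)) ?_ ?_
    · intro a b ha hb
      obtain ⟨n, hn⟩ := harch (φ a) (φ b) ((map_ne_zero φ).2 ha) ((I3_comap_lt_one W φ b).1 hb)
      refine ⟨n, ?_⟩
      rw [I3_comap_le, map_pow]
      exact hn
    · intro i h0
      apply hx.ne i
      rw [← hx0 i, h0, map_zero]
    · intro m hm
      rw [C2_comap_val_one, hmon] at hm
      apply hx.indep m
      have h1 : (fun i => φ (x0 i)) = x := funext hx0
      rwa [h1] at hm
    · intro z hz
      obtain ⟨a, ha, h1⟩ := hrank (fun i => φ (z i)) (fun i => (map_ne_zero φ).2 (hz i))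
      exact ⟨a, ha, by rw [C2_comap_val_one, hmon]; exact h1⟩
    · exact EFT_comp_surjective _ _ hσ (ResidueField.mapEquiv e).surjective
    · intro z hz
      obtain ⟨f, ⟨n, hn⟩, hf⟩ := hres (φ z) hz
      refine ⟨f.map (e : B →+* A0), ⟨n, ?_⟩, ?_⟩
      · rw [C2_comap_val_one, Polynomial.coeff_map]
        have h1 : φ (((e : B →+* A0) (f.coeff n) : A0) : FractionRing B) = f.coeff n := hφe _
        rw [h1]
        exact hn
      · rw [I3_comap_lt_one, Polynomial.eval₂_map, Polynomial.hom_eval₂]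
        have h1 : φ.comp (A0.subtype.comp (e : B →+* A0)) = B.subtype :=
          RingHom.ext fun b => hφe b
        rw [h1]
        exact hf
    · intro d hd
      obtain ⟨d, rfl⟩ := e.surjective d
      have hd' : B.subtype d ≠ 0 := by
        intro h0
        apply hd
        apply φ.injective
        rw [map_zero]
        exact (hφe d).trans h0
      refine (Ideal.map_mono (hI d hd')).trans ?_
      rw [Ideal.map_span]
      refine Ideal.span_mono ?_
      rintro _ ⟨_, ⟨c, hc, rfl⟩, rfl⟩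
      refine ⟨e c, ?_, (hE c).symm⟩
      have hc' : W.valuation (c : L) ≤ W.valuation (d : L) := hc
      show (W.comap φ).valuation ((e c : A0) : FractionRing B) ≤
        (W.comap φ).valuation ((e d : A0) : FractionRing B)
      rw [I3_comap_le, hφe, hφe]
      exact hc'
    · rw [← dim_mapQ E]
      exact hdim
  exact EMB3_map φ W (W.comap φ) (fun _ => Iff.rfl) (fun z => C2_comap_val_one W φ z) B A0 hmap
    hfrac hsurj h3

end CQ
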