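import Pool.Agent.Lib.TC.I1
import Pool.Agent.Lib.MP_3029eb_ag.ImpResult

/-!
# Module CQ.ImplQ: the implicit ideal after adjoining algebraic elements (version without conditions on
the rational rank)
-/

open IsLocalRing

namespace CQ
open TC
open Pool.Agent.Lib.MP_3029eb_ag Pool.Agent.Lib.MP_3029eb_ag.Abh

theorem small_auxQ {L : Type} [NormedField L] [IsUltrametricDist L] (A : Subring L)
    (hA : A ≤ (ball L).toSubring) (z : L) (hz : ‖z‖ < 1) (hz0 : z ≠ 0) (n : ℕ) :
    ∀ f : Polynomial A, f.natDegree ≤ n → f ≠ 0 → Polynomial.eval₂ A.subtype z f = 0 →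
      ∃ a ∈ A, a ≠ 0 ∧ ‖a‖ < 1 := by
  have hzb : z ∈ ball L := hz.le
  have hev : ∀ g : Polynomial A, Polynomial.eval₂ A.subtype z g ∈ ball L := by
    intro g
    have h1 : Polynomial.eval₂ A.subtype z g = (ball L).toSubring.subtype
        (Polynomial.eval₂ (Subring.inclusion hA) (⟨z, hzb⟩ : (ball L).toSubring) g) := by
      rw [Polynomial.hom_eval₂]
      rfl
    rw [h1]
    exact Subtype.property _
  induction n with
  | zero =>
    intro f hn hf0 hf
    rw [Nat.le_zero] at hn
    rw [Polynomial.eq_C_of_natDegree_eq_zero hn] at hf0 hf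
    rw [Polynomial.eval₂_C] at hf
    have h1 : f.coeff 0 = 0 := Subtype.ext hf
    rw [h1, map_zero] at hf0
    exact absurd rfl hf0
  | succ n ih =>
    intro f hn hf0 hf
    have h1 := f.divX_mul_X_add
    by_cases h0 : f.coeff 0 = 0
    · rw [h0, map_zero, add_zero] at h1
      refine ih f.divX ?_ ?_ ?_
      · rw [Polynomial.natDegree_divX_eq_natDegree_tsub_one]
        omega
      · intro h2
        rw [h2, zero_mul] at h1
        exact hf0 h1.symm
      · rw [← h1, Polynomial.eval₂_mul, Polynomial.eval₂_X] at hf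
        exact (mul_eq_zero.1 hf).resolve_right hz0
    · refine ⟨(f.coeff 0 : A), (f.coeff 0).2, fun h => h0 (Subtype.ext h), ?_⟩
      rw [← h1, Polynomial.eval₂_add, Polynomial.eval₂_mul, Polynomial.eval₂_X,
        Polynomial.eval₂_C] at hf
      have h2 : ((f.coeff 0 : A) : L) = -(Polynomial.eval₂ A.subtype z f.divX * z) :=
        eq_neg_of_add_eq_zero_right hf
      rw [h2, norm_neg, norm_mul]
      exact (mul_le_of_le_one_left (norm_nonneg _) (hev f.divX)).trans_lt hz

private theorem I2_ker {L : Type} [NontriviallyNormedField L] [IsUltrametricDist L] {Ω : Type}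
    [NontriviallyNormedField Ω] [IsUltrametricDist Ω] (κ : L →+* Ω) (hκ : ∀ z, ‖κ z‖ = ‖z‖)
    (B : Subring L) [IsNoetherianRing B] [IsLocalRing B]
    (φ : AdicCompletion (maximalIdeal B) B →+* Ω) (hφ : Dom φ)
    (hφB : ∀ a : B, φ (algebraMap B (AdicCompletion (maximalIdeal B) B) a) = κ (a : L)) :
    Impl (ball L) B.subtype (RingHom.ker φ) := by
  intro d hd t ht
  have iT : IsNoetherianRing (AdicCompletion (maximalIdeal B) B) := noetherian_adicCompletion B
  have hι : SameCompletion (algebraMap B (AdicCompletion (maximalIdeal B) B)) :=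
    sameCompletion_adicCompletion B
  have hd0 : (0 : ℝ) < ‖(d : L)‖ := norm_pos_iff.2 hd
  obtain ⟨q, hq0, hq1, hq⟩ := S13_pow_norm φ hφ
  obtain ⟨N, hN⟩ := exists_pow_lt_of_lt_one hd0 hq1
  obtain ⟨a, ha⟩ := Imp.IR_approx (algebraMap B (AdicCompletion (maximalIdeal B) B)) hι t N
  have hle : ∀ b : B, ‖(b : L)‖ ≤ ‖(d : L)‖ →
      (ball L).valuation (B.subtype b) ≤ (ball L).valuation (B.subtype d) := by
    intro b hb
    have h1 : (b : L) / (d : L) ∈ ball L := by
      rw [mem_ball, norm_div]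
      exact div_le_one_of_le₀ hb (norm_nonneg _)
    have h2 : (b : L) = (b : L) / (d : L) * (d : L) := (div_mul_cancel₀ _ hd).symm
    show (ball L).valuation (b : L) ≤ (ball L).valuation (d : L)
    rw [h2, map_mul]
    calc (ball L).valuation ((b : L) / (d : L)) * (ball L).valuation (d : L)
        ≤ 1 * (ball L).valuation (d : L) := by
          gcongr
          exact ((ball L).valuation_le_one_iff _).2 h1
      _ = _ := one_mul _
  have hmem : ∀ b : B, ‖(b : L)‖ ≤ ‖(d : L)‖ → algebraMap B (AdicCompletion (maximalIdeal B) B) b ∈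
      Ideal.span (algebraMap B (AdicCompletion (maximalIdeal B) B) ''
        {a : B | (ball L).valuation (B.subtype a) ≤ (ball L).valuation (B.subtype d)}) :=
    fun b hb => Ideal.subset_span ⟨b, hle b hb, rfl⟩
  have ht' : φ t = 0 := ht
  have h1 : ‖(a : L)‖ ≤ ‖(d : L)‖ := by
    have h2 := hq _ _ ha
    rw [map_sub, ht', hφB, zero_sub, norm_neg, hκ] at h2
    exact h2.trans hN.le
  have h3 : (maximalIdeal (AdicCompletion (maximalIdeal B) B)) ^ N ≤
      Ideal.span (algebraMap B (AdicCompletion (maximalIdeal B) B) ''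
        {a : B | (ball L).valuation (B.subtype a) ≤ (ball L).valuation (B.subtype d)}) := by
    refine (Ideal.pow_right_mono (Imp.ID_max_le _ hι) N).trans ?_
    rw [← Ideal.map_pow, Ideal.map_le_iff_le_comap]
    intro b hb
    refine hmem b ?_
    have h4 : algebraMap B (AdicCompletion (maximalIdeal B) B) b ∈
        (maximalIdeal (AdicCompletion (maximalIdeal B) B)) ^ N := by
      have h5 : (maximalIdeal B ^ N).map (algebraMap B (AdicCompletion (maximalIdeal B) B)) ≤
          (maximalIdeal (AdicCompletion (maximalIdeal B) B)) ^ N := by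
        rw [Ideal.map_pow]
        exact Ideal.pow_right_mono (Ideal.map_le_iff_le_comap.2 hι.map_mem) N
      exact h5 (Ideal.mem_map_of_mem _ hb)
    have h6 := hq _ _ h4
    rw [hφB, hκ] at h6
    exact h6.trans hN.le
  have h7 : t = (t - algebraMap B (AdicCompletion (maximalIdeal B) B) a) +
      algebraMap B (AdicCompletion (maximalIdeal B) B) a := by ring
  rw [h7]
  exact add_mem (h3 ha) (hmem a h1)

theorem le_kerQ {L : Type} [NontriviallyNormedField L] [IsUltrametricDist L] {Ω : Type}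
    [NontriviallyNormedField Ω] [IsUltrametricDist Ω] (κ : L →+* Ω) (hκ : ∀ z, ‖κ z‖ = ‖z‖)
    (C : Type) [CommRing C] [IsLocalRing C] (j : C →+* L)
    (hsm : ∃ c : C, j c ≠ 0 ∧ ‖j c‖ < 1)
    (I : Ideal (AdicCompletion (maximalIdeal C) C)) (hI : Impl (ball L) j I)
    (φ : AdicCompletion (maximalIdeal C) C →+* Ω) (hφ : ∀ t, ‖φ t‖ ≤ 1)
    (hφC : ∀ c : C, φ (algebraMap C (AdicCompletion (maximalIdeal C) C) c) = κ (j c)) :
    I ≤ RingHom.ker φ := by
  intro t ht
  rw [RingHom.mem_ker]
  by_contra hne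
  have hpos : 0 < ‖φ t‖ := norm_pos_iff.2 hne
  obtain ⟨c, hc0, hc1⟩ := hsm
  obtain ⟨N, hN⟩ := exists_pow_lt_of_lt_one hpos hc1
  have h1 := hI (c ^ N) (by rw [map_pow]; exact pow_ne_zero _ hc0) ht
  have h2 : Ideal.span (algebraMap C (AdicCompletion (maximalIdeal C) C) ''
      {a : C | (ball L).valuation (j a) ≤ (ball L).valuation (j (c ^ N))}) ≤
      ({ carrier := {t | ‖φ t‖ ≤ ‖j c‖ ^ N}
         add_mem' := fun {a b} ha hb => by
            show ‖φ (a + b)‖ ≤ _
            rw [map_add]
            exact (IsUltrametricDist.norm_add_le_max _ _).trans (max_le ha hb)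
         zero_mem' := by
            show ‖φ 0‖ ≤ _
            rw [map_zero, norm_zero]; positivity
         smul_mem' := fun c a ha => by
            show ‖φ (c * a)‖ ≤ _
            rw [map_mul, norm_mul]
            exact (mul_le_of_le_one_left (norm_nonneg _) (hφ _)).trans ha } :
          Ideal (AdicCompletion (maximalIdeal C) C)) := by
    rw [Ideal.span_le]
    rintro _ ⟨a, ha, rfl⟩
    show ‖φ (algebraMap C (AdicCompletion (maximalIdeal C) C) a)‖ ≤ _
    rw [hφC, hκ, ← norm_pow, ← map_pow]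
    have hd0 : j (c ^ N) ≠ 0 := by rw [map_pow]; exact pow_ne_zero _ hc0
    have ha' : (ball L).valuation (j a) ≤ (ball L).valuation (j (c ^ N)) := ha
    have h3 : (ball L).valuation (j a / j (c ^ N)) ≤ 1 := by
      rw [map_div₀]
      exact div_le_one_of_le₀ ha' zero_le
    rw [ValuationSubring.valuation_le_one_iff, mem_ball, norm_div,
      div_le_one (norm_pos_iff.2 hd0)] at h3
    exact h3
  have h3 : ‖φ t‖ ≤ ‖j c‖ ^ N := h2 h1
  exact absurd h3 (not_le.2 hN)

private theorem I2_ball {L : Type} [NontriviallyNormedField L] [IsUltrametricDist L]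
    (C : Type) [CommRing C] [IsLocalRing C] [IsNoetherianRing C] (j : C →+* L)
    (hj : ∀ c, j c ∈ ball L) (hjm : ∀ c, c ∈ maximalIdeal C ↔ (ball L).valuation (j c) < 1)
    (halg : ∀ z : L, AlgOver j.range z) {r s : ℕ}
    (y : Fin s → L) (hy : ∀ i, y i ∈ ball L) (hres : ResIndep (ball L) j.range y)
    (I : Ideal (AdicCompletion (maximalIdeal C) C)) (hI : Impl (ball L) j I)
    (hdim : ringKrullDim (AdicCompletion (maximalIdeal C) C ⧸ I) ≤ ((r + s : ℕ) : WithBot ℕ∞))
    (B : Subring L) [IsNoetherianRing B] [IsLocalRing B] (g : Finset L)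
    (hg : ∀ t ∈ g, t ∈ ball L)
    (hBg : B = locV (ball L) (Subring.closure ((j.range : Set L) ∪ (g : Set L))))
    (hyB : ∀ i, y i ∈ B) :
    ∃ I' : Ideal (AdicCompletion (maximalIdeal B) B), Impl (ball L) B.subtype I' ∧
      ringKrullDim (AdicCompletion (maximalIdeal B) B ⧸ I') ≤ (r : WithBot ℕ∞) := by
  classical
  have hjle : j.range ≤ (ball L).toSubring := by
    rintro _ ⟨c, rfl⟩
    exact hj c
  have hjm' : ∀ c, c ∈ maximalIdeal C ↔ ‖j c‖ < 1 := fun c => by
    rw [hjm, Imp.ID_lt_iff]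
  obtain ⟨Ω, i1, i2, i3, κ, hκ, -⟩ := exists_completion_field L
  have hdomC : Dom (κ.comp j) := fun c => by
    rw [RingHom.comp_apply, hκ]
    exact ⟨hj c, hjm' c⟩
  obtain ⟨φ, hφ, hφC⟩ := exists_lift_ball C (κ.comp j) hdomC
  have hφC' : ∀ c : C, φ (algebraMap C (AdicCompletion (maximalIdeal C) C) c) = κ (j c) :=
    fun c => by rw [← RingHom.comp_apply, hφC]; rfl
  -- a small element
  have hsm : ∃ c : C, j c ≠ 0 ∧ ‖j c‖ < 1 := by
    obtain ⟨z, hz0, hz1⟩ := NormedField.exists_norm_lt_one L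
    obtain ⟨f, hf0, hf⟩ := halg z
    obtain ⟨_, ⟨c, rfl⟩, hc0, hc1⟩ := small_auxQ j.range hjle z hz1 (norm_pos_iff.1 hz0)
      f.natDegree f le_rfl hf0 hf
    exact ⟨c, hc0, hc1⟩
  have hIle : I ≤ RingHom.ker φ := le_kerQ κ hκ C j hsm I hI φ (fun t => (hφ t).1) hφC'
  have iTC : IsNoetherianRing (AdicCompletion (maximalIdeal C) C) := noetherian_adicCompletion C
  have hdimφ : ringKrullDim φ.range ≤ ((r + s : ℕ) : WithBot ℕ∞) := by
    refine le_trans ?_ hdim
    refine ringKrullDim_le_of_surjective (Ideal.Quotient.lift I φ.rangeRestrict fun t ht =>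
      Subtype.ext (hIle ht)) ?_
    intro t
    obtain ⟨t, rfl⟩ := φ.rangeRestrict_surjective t
    exact ⟨Ideal.Quotient.mk _ t, rfl⟩
  -- enlarge the set `g`
  let g' : Finset L := g ∪ Finset.univ.image y
  have hBV : B ≤ (ball L).toSubring := by
    rw [hBg]
    exact locV_le _ (closure_le_val _ _ hjle _ fun t ht => hg t ht)
  have hBl : locV (ball L) B = B := by
    rw [hBg]
    exact locV_locV _ _
  have hBg' : B = locV (ball L) (Subring.closure ((j.range : Set L) ∪ (g' : Set L))) := by
    apply le_antisymm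
    · conv_lhs => rw [hBg]
      apply locV_mono
      apply Subring.closure_mono
      apply Set.union_subset_union_right
      intro t ht
      exact Finset.mem_coe.2 (Finset.mem_union_left _ (Finset.mem_coe.1 ht))
    · refine le_trans (locV_mono (ball L) (?_ : _ ≤ B)) hBl.le
      rw [Subring.closure_le]
      rintro t (ht | ht)
      · rw [hBg]
        exact le_locV _ _ (Subring.subset_closure (Or.inl ht))
      · rcases Finset.mem_union.1 (Finset.mem_coe.1 ht) with h | h
        · rw [hBg]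
          exact le_locV _ _ (Subring.subset_closure (Or.inr (Finset.mem_coe.2 h)))
        · obtain ⟨i, -, rfl⟩ := Finset.mem_image.1 h
          exact hyB i
  have hg' : ∀ z ∈ g', ‖z‖ ≤ 1 := by
    intro z hz
    rcases Finset.mem_union.1 hz with h | h
    · exact hg z h
    · obtain ⟨i, -, rfl⟩ := Finset.mem_image.1 h
      exact hy i
  have hyg : ∀ i, y i ∈ g' := fun i =>
    Finset.mem_union_right _ (Finset.mem_image_of_mem _ (Finset.mem_univ i))
  clear_value g'
  clear hBg
  subst hBg'
  have hdomB : Dom (locV (ball L) (Subring.closure ((j.range : Set L) ∪ (g' : Set L)))).subtype :=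
    dom_subtype _ hBV hBl
  obtain ⟨φ', hφ', hφB⟩ := Imp.exists_lift_subring κ hκ
    (locV (ball L) (Subring.closure ((j.range : Set L) ∪ (g' : Set L)))) hdomB
  refine ⟨RingHom.ker φ', I2_ker κ hκ _ φ' hφ' hφB, ?_⟩
  have iTB : IsNoetherianRing (AdicCompletion (maximalIdeal (locV (ball L)
    (Subring.closure ((j.range : Set L) ∪ (g' : Set L))))) (locV (ball L)
    (Subring.closure ((j.range : Set L) ∪ (g' : Set L))))) := noetherian_adicCompletion _
  exact dim_range j.range halg κ hκ C j rfl hjm' (AdicCompletion (maximalIdeal C) C)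
    (algebraMap C (AdicCompletion (maximalIdeal C) C)) (sameCompletion_adicCompletion C) φ hφ hφC'
    hdimφ y hy hres g' hg' hyg (AdicCompletion _ _) (algebraMap _ (AdicCompletion _ _))
    (sameCompletion_adicCompletion _) φ' hφ' hφB

theorem impl_dimQ {L : Type} [Field L] (W : ValuationSubring L) (hW : W ≠ ⊤)
    (harch : ∀ a b : L, a ≠ 0 → W.valuation b < 1 →
      ∃ n : ℕ, W.valuation (b ^ n) ≤ W.valuation a)
    (C : Type) [CommRing C] [IsLocalRing C] [IsNoetherianRing C] (j : C →+* L)
    (hj : ∀ c, j c ∈ W) (hjm : ∀ c, c ∈ maximalIdeal C ↔ W.valuation (j c) < 1)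
    (halg : ∀ z : L, AlgOver j.range z) {r s : ℕ}
    (y : Fin s → L) (hy : ∀ i, y i ∈ W) (hres : ResIndep W j.range y)
    (I : Ideal (AdicCompletion (maximalIdeal C) C)) (hI : Impl W j I)
    (hdim : ringKrullDim (AdicCompletion (maximalIdeal C) C ⧸ I) ≤ ((r + s : ℕ) : WithBot ℕ∞))
    (B : Subring L) [IsNoetherianRing B] [IsLocalRing B] (g : Finset L) (hg : ∀ t ∈ g, t ∈ W)
    (hBg : B = locV W (Subring.closure ((j.range : Set L) ∪ (g : Set L))))
    (hyB : ∀ i, y i ∈ B) :
    ∃ I' : Ideal (AdicCompletion (maximalIdeal B) B), Impl W B.subtype I' ∧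
      ringKrullDim (AdicCompletion (maximalIdeal B) B ⧸ I') ≤ (r : WithBot ℕ∞) := by
  obtain ⟨v, hna, hnt, hVv⟩ := exists_absval W hW harch
  let iN : NormedField L := v.toNormedField
  have hnorm : ∀ z : L, ‖z‖ = v z := fun z => rfl
  let iNN : NontriviallyNormedField L :=
    { v.toNormedField with
      non_trivial := by
        obtain ⟨y, hy0, hy⟩ := hnt
        refine ⟨y⁻¹, ?_⟩
        have h1 : v y⁻¹ = (v y)⁻¹ := map_inv₀ v y
        show 1 < v y⁻¹
        rw [h1]
        exact (one_lt_inv₀ (v.pos hy0)).2 hy }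
  have iU : IsUltrametricDist L :=
    IsUltrametricDist.isUltrametricDist_of_forall_norm_add_le_max_norm hna
  have hVb : W = ball L := by
    ext z
    rw [hVv, mem_ball]
    exact Iff.rfl
  subst hVb
  exact I2_ball C j hj hjm halg y hy hres I hI hdim B g hg hBg hyB

end CQ
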