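import Pool.Agent.Lib.CQ.StepQ
import Pool.Agent.Lib.TC.IQ

/-!
# Module CQ.QQ: steps of transcendence defect one modulo the implicit prime, in terms of subalgebras
-/

open IsLocalRing

namespace CQ
open TC
open Pool.Agent.Lib.MP_3029eb_ag Pool.Agent.Lib.MP_3029eb_ag.Abh

private theorem QQ_equiv {R K : Type} [CommRing R] [Field K] [Algebra R K]
    {V : ValuationSubring K} (A0 : Subalgebra R K) (P : Ideal A0) [P.IsPrime]
    (hAV : ∀ a : A0, (a : K) ∈ V) (hP : ∀ a : A0, a ∈ P ↔ V.valuation (a : K) < 1) :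
    ∃ e : Localization.AtPrime P ≃+* locV V A0.toSubring, ∀ a : A0,
      ((e (algebraMap A0 (Localization.AtPrime P) a) : locV V A0.toSubring) : K) = a := by
  let i1 : A0 →+* locV V A0.toSubring :=
    (A0.subtype : A0 →+* K).codRestrict _ fun a => le_locV V _ a.2
  let : Algebra A0 (locV V A0.toSubring) := i1.toAlgebra
  have hmap : ∀ a : A0, ((algebraMap A0 (locV V A0.toSubring) a : locV V A0.toSubring) : K) = a :=
    fun a => rfl
  have hc : ∀ b : A0, b ∈ P.primeCompl ↔ V.valuation (b : K) = 1 := by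
    intro b
    rw [Ideal.mem_primeCompl_iff, hP, not_lt]
    exact ⟨fun h1 => le_antisymm ((V.valuation_le_one_iff _).2 (hAV b)) h1, fun h1 => h1.ge⟩
  have : IsLocalization P.primeCompl (locV V A0.toSubring) :=
    { map_units := by
        rintro ⟨b, hb⟩
        have hb' : V.valuation (b : K) = 1 := (hc b).1 hb
        have hb0 : (b : K) ≠ 0 := ((C1_val_one_iff V _).1 hb').2.2
        have hmem : (b : K)⁻¹ ∈ locV V A0.toSubring :=
          ⟨1, one_mem _, b, b.2, hb', inv_mul_cancel₀ hb0⟩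
        exact IsUnit.of_mul_eq_one ⟨(b : K)⁻¹, hmem⟩ (Subtype.ext (mul_inv_cancel₀ hb0))
      surj := by
        rintro ⟨z, a, ha, b, hb, hb1, hab⟩
        exact ⟨(⟨a, ha⟩, ⟨⟨b, hb⟩, (hc ⟨b, hb⟩).2 hb1⟩), Subtype.ext hab⟩
      exists_of_eq := by
        intro x y hxy
        refine ⟨1, ?_⟩
        have : (x : K) = y := by
          rw [← hmap x, ← hmap y, hxy]
        rw [Subtype.ext this] }
  refine ⟨(IsLocalization.algEquiv P.primeCompl (Localization.AtPrime P)
    (locV V A0.toSubring)).toRingEquiv, fun a => ?_⟩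
  have h1 : (IsLocalization.algEquiv P.primeCompl (Localization.AtPrime P)
      (locV V A0.toSubring)).toRingEquiv (algebraMap A0 (Localization.AtPrime P) a) =
      algebraMap A0 (locV V A0.toSubring) a :=
    (IsLocalization.algEquiv P.primeCompl (Localization.AtPrime P)
      (locV V A0.toSubring)).commutes a
  rw [h1]
  exact hmap a

private theorem QQ_step (p : ℕ) [Fact p.Prime] {R K : Type} [CommRing R] [Field K] [Algebra R K]
    (hRn : IsNoetherianRing R) {V V1 : ValuationSubring K} (h : V ≤ V1)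
    (harch : ∀ a b : K, V1.valuation a = 1 → V1.valuation b = 1 → V.valuation b < 1 →
      ∃ n : ℕ, V.valuation (b ^ n) ≤ V.valuation a)
    (A0 : Subalgebra R K) (hfg : A0.FG)
    (hAV : ∀ a : A0, (a : K) ∈ V) (P : Ideal A0) [P.IsPrime]
    (hP : ∀ a : A0, a ∈ P ↔ V.valuation (a : K) < 1)
    (halg : ∀ z : K, z ∈ V1 → ∃ f : Polynomial A0,
      (∃ n, V1.valuation ((f.coeff n : A0) : K) = 1) ∧ V1.valuation (Polynomial.aeval z f) < 1)
    {r s : ℕ} (hr : 0 < r) (x : Fin r → K) (hx1 : ∀ i, V1.valuation (x i) = 1)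
    (hx : ∀ m : Fin r → ℤ, V.valuation (∏ i, x i ^ m i) = 1 → m = 0)
    (hrank : ∀ z : Fin (r + 1) → K, (∀ i, V1.valuation (z i) = 1) →
      ∃ m : Fin (r + 1) → ℤ, m ≠ 0 ∧ V.valuation (∏ i, z i ^ m i) = 1)
    (y : Fin s → K) (hyV : ∀ j, y j ∈ V)
    (hy : ∀ q : MvPolynomial (Fin s) A0, V.valuation (MvPolynomial.aeval y q) < 1 →
      ∀ m, V.valuation ((MvPolynomial.coeff m q : A0) : K) < 1)
    (hyalg : ∀ z : K, z ∈ V → ∃ f : Polynomial (Algebra.adjoin A0 (Set.range y)),
      (∃ n, V.valuation ((f.coeff n : Algebra.adjoin A0 (Set.range y)) : K) = 1) ∧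
      V.valuation (Polynomial.aeval z f) < 1)
    (hp : V1.valuation (p : K) < 1) {k : Type} [Field k] [PerfectField k]
    (σ : k →+* ResidueField (Localization.AtPrime P)) (hσ : EFT σ)
    (hdim : ringKrullDim (AdicCompletion (maximalIdeal (Localization.AtPrime P))
      (Localization.AtPrime P) ⧸ implicitIdeal V1 V A0 P) ≤ ((r + s + 1 : ℕ) : WithBot ℕ∞))
    (S : Subring K) (hS : S = A0.toSubring) [IsLocalRing (locV V S)] :
    ∃ I : Ideal (AdicCompletion (maximalIdeal (locV V S)) (locV V S)),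
      QStep p V1 V (locV V S) x y I := by
  subst hS
  have hAV' : A0.toSubring ≤ V.toSubring := fun z hz => hAV ⟨z, hz⟩
  have hn0 : IsNoetherianRing A0 := isNoetherianRing_of_fg hfg
  have hn1 : IsNoetherianRing A0.toSubring := isNoetherianRing_of_fg hfg
  have hn2 : IsNoetherianRing (locV V A0.toSubring) := isNoetherianRing_locV V
  have hn3 : IsNoetherianRing (Localization.AtPrime P) :=
    IsLocalization.isNoetherianRing P.primeCompl (Localization.AtPrime P) hn0
  obtain ⟨e, he⟩ := QQ_equiv A0 P hAV hP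
  obtain ⟨E, hE⟩ := Pool.Agent.Lib.MP_3029eb_ag.Imp.exists_completion_equiv e
  let i1 : A0 →+* locV V A0.toSubring :=
    (A0.subtype : A0 →+* K).codRestrict _ fun a => le_locV V _ a.2
  let i2 : A0.toSubring →+* A0 := A0.toSubring.subtype.codRestrict A0 fun a => a.2
  refine ⟨(implicitIdeal V1 V A0 P).map (E : _ →+* _), h, locV_le V hAV', locV_locV V _,
    fun z hz => ?_, hr, harch, hx1, hx, hrank, hyV, resIndep_locV V _ hAV' ?_, ?_, hp,
    ⟨k, inferInstance, inferInstance,
      (ResidueField.mapEquiv e : ResidueField (Localization.AtPrime P) →+*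
        ResidueField (locV V A0.toSubring)).comp σ,
      EFT_comp_surjective _ _ hσ (ResidueField.mapEquiv e).surjective⟩, fun d hd => ?_, ?_⟩
  · obtain ⟨f, ⟨n, hn⟩, hf⟩ := halg z hz
    refine ⟨f.map i1, ⟨n, ?_⟩, ?_⟩
    · rw [Polynomial.coeff_map]
      exact hn
    · rw [Polynomial.eval₂_map]
      exact hf
  · intro q hq m
    have h1 := hy (MvPolynomial.map i2 q) (by
      rw [MvPolynomial.aeval_def, MvPolynomial.eval₂_map]
      exact hq) m
    rw [MvPolynomial.coeff_map] at h1
    exact h1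
  · intro z hz
    obtain ⟨f, ⟨n, hn⟩, hf⟩ := hyalg z hz
    have hle : ∀ a : Algebra.adjoin A0 (Set.range y),
        (a : K) ∈ Subring.closure ((locV V A0.toSubring : Set K) ∪ Set.range y) := by
      intro a
      have h1 : (a : K) ∈ (Algebra.adjoin A0 (Set.range y)).toSubring := a.2
      rw [Algebra.adjoin_eq_ring_closure] at h1
      refine (Subring.closure_mono (Set.union_subset_union_left _ ?_)) h1
      rintro _ ⟨b, rfl⟩
      exact le_locV V _ b.2
    let i3 : Algebra.adjoin A0 (Set.range y) →+*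
        Subring.closure ((locV V A0.toSubring : Set K) ∪ Set.range y) :=
      (algebraMap (Algebra.adjoin A0 (Set.range y)) K).codRestrict _ fun a => hle a
    refine ⟨f.map i3, ⟨n, ?_⟩, ?_⟩
    · rw [Polynomial.coeff_map]
      exact hn
    · rw [Polynomial.eval₂_map]
      exact hf
  · obtain ⟨z, a, ha, b, hb, hb1, hab⟩ := d
    have hd' : V1.valuation z = 1 := hd
    have hb2 : V1.valuation b = 1 := by
      have h2 := (C1_val_one_iff V b).1 hb1
      exact (C1_val_one_iff V1 b).2 ⟨h h2.1, h h2.2.1, h2.2.2⟩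
    have ha1 : V1.valuation a = 1 := by rw [← hab, map_mul, hd', hb2, one_mul]
    have haz : V.valuation a = V.valuation z := by rw [← hab, map_mul, hb1, mul_one]
    have h1 : implicitIdeal V1 V A0 P ≤ Ideal.span
        ((fun a : A0 => algebraMap (Localization.AtPrime P)
          (AdicCompletion (maximalIdeal (Localization.AtPrime P)) (Localization.AtPrime P))
          (algebraMap A0 (Localization.AtPrime P) a)) ''
          {c : A0 | V.valuation (c : K) ≤ V.valuation a}) :=
      iInf_le (fun d : {d : A0 // V1.valuation (d : K) = 1} => Ideal.span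
        ((fun a : A0 => algebraMap (Localization.AtPrime P)
          (AdicCompletion (maximalIdeal (Localization.AtPrime P)) (Localization.AtPrime P))
          (algebraMap A0 (Localization.AtPrime P) a)) ''
          {a : A0 | V.valuation (a : K) ≤ V.valuation ((d : A0) : K)})) ⟨⟨a, ha⟩, ha1⟩
    refine (Ideal.map_mono h1).trans ?_
    rw [Ideal.map_span]
    refine Ideal.span_mono ?_
    rintro _ ⟨_, ⟨c, hc, rfl⟩, rfl⟩
    refine ⟨e (algebraMap A0 (Localization.AtPrime P) c), ?_, ?_⟩
    · show V.valuation ((e (algebraMap A0 (Localization.AtPrime P) c) : locV V A0.toSubring) : K) ≤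
        V.valuation z
      rw [he, ← haz]
      exact hc
    · exact (hE _).symm
  · rw [← dim_mapQ E, Nat.add_right_comm r 1 s]
    exact hdim

theorem unif_QQ (p : ℕ) [Fact p.Prime] {R K : Type} [CommRing R] [Field K] [Algebra R K]
    (hR : GoodBase R)
    {V V1 : ValuationSubring K} (h : V ≤ V1)
    (harch : ∀ a b : K, V1.valuation a = 1 → V1.valuation b = 1 → V.valuation b < 1 →
      ∃ n : ℕ, V.valuation (b ^ n) ≤ V.valuation a)
    (A0 : Subalgebra R K) (hfg : A0.FG)
    (hAV : ∀ a : A0, (a : K) ∈ V) (P : Ideal A0) [P.IsPrime]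
    (hP : ∀ a : A0, a ∈ P ↔ V.valuation (a : K) < 1)
    (halg : ∀ z : K, z ∈ V1 → ∃ f : Polynomial A0,
      (∃ n, V1.valuation ((f.coeff n : A0) : K) = 1) ∧ V1.valuation (Polynomial.aeval z f) < 1)
    {r s : ℕ} (hr : 0 < r) (x : Fin r → K) (hx1 : ∀ i, V1.valuation (x i) = 1)
    (hx : ∀ m : Fin r → ℤ, V.valuation (∏ i, x i ^ m i) = 1 → m = 0)
    (hrank : ∀ z : Fin (r + 1) → K, (∀ i, V1.valuation (z i) = 1) →
      ∃ m : Fin (r + 1) → ℤ, m ≠ 0 ∧ V.valuation (∏ i, z i ^ m i) = 1)
    (y : Fin s → K) (hyV : ∀ j, y j ∈ V)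
    (hy : ∀ q : MvPolynomial (Fin s) A0, V.valuation (MvPolynomial.aeval y q) < 1 →
      ∀ m, V.valuation ((MvPolynomial.coeff m q : A0) : K) < 1)
    (hyalg : ∀ z : K, z ∈ V → ∃ f : Polynomial (Algebra.adjoin A0 (Set.range y)),
      (∃ n, V.valuation ((f.coeff n : Algebra.adjoin A0 (Set.range y)) : K) = 1) ∧
      V.valuation (Polynomial.aeval z f) < 1)
    (hp : V1.valuation (p : K) < 1) {k : Type} [Field k] [PerfectField k]
    (σ : k →+* ResidueField (Localization.AtPrime P)) (hσ : EFT σ)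
    (hdim : ringKrullDim (AdicCompletion (maximalIdeal (Localization.AtPrime P))
      (Localization.AtPrime P) ⧸ implicitIdeal V1 V A0 P) ≤ ((r + s + 1 : ℕ) : WithBot ℕ∞)) {r1 : ℕ}
    (H : Unif (algebraMap R K) V1 r1) : Unif (algebraMap R K) V (r1 + r) := by
  classical
  have hfg' := hfg
  obtain ⟨g0, hg0⟩ := hfg
  have hA : Subring.closure (((algebraMap R K).range : Set K) ∪ (g0 : Set K)) = A0.toSubring := by
    rw [← hg0, Algebra.adjoin_eq_ring_closure]
    rfl
  have hAV' : Subring.closure (((algebraMap R K).range : Set K) ∪ (g0 : Set K)) ≤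
      V.toSubring := by
    rw [hA]
    exact fun z hz => hAV ⟨z, hz⟩
  have hloc : IsLocalRing
      (locV V (Subring.closure (((algebraMap R K).range : Set K) ∪ (g0 : Set K)))) :=
    isLocalRing_locV V hAV'
  obtain ⟨I, hI⟩ := QQ_step p hR.1 h harch A0 hfg' hAV P hP halg hr x hx1 hx hrank y hyV hy
    hyalg hp σ hσ hdim
    (Subring.closure (((algebraMap R K).range : Set K) ∪ (g0 : Set K))) hA
  exact unif_Q p hR (algebraMap R K) g0 hI H

end CQ
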